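import Pool.Agent.Lib.MP_c5d73d_lc.F.IfaceT

/-!
# Module EXU: extension of a filter to a nonprincipal ultrafilter
-/

universe u v w

open Cardinal Filter

namespace Pool.Agent.Lib.MP_c5d73d_lc.F.H90

variable {B : Type u} [CompleteBooleanAlgebra B]

theorem ssub_top_of_le {a b : Rl B} (h : a ≤ b) : ssub a b = ⊤ := by
  refine top_le_iff.1 (le_iSup_of_le 0 (le_iInf fun n => ?_))
  rw [le_himp_iff, top_inf_eq]
  exact h _

theorem ssub_sup_left (a b c : Rl B) : ssub a b ≤ ssub (c ⊔ a) (c ⊔ b) := by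
  refine iSup_mono fun N => iInf_mono fun n => ?_
  rw [le_himp_iff]
  change (a (n + N) ⇨ b (n + N)) ⊓ (c (n + N) ⊔ a (n + N)) ≤ c (n + N) ⊔ b (n + N)
  rw [inf_sup_left]
  refine sup_le (inf_le_right.trans le_sup_left) ?_
  exact (himp_inf_le).trans le_sup_right

/-- The filters. -/
structure Flt (F : Rl B → B) : Prop where
  bot : F ⊥ = ⊥
  top : F ⊤ = ⊤
  inf : ∀ a b, F a ⊓ F b ≤ F (a ⊓ b)
  sub : ∀ a b, ssub a b ⊓ F a ≤ F b

theorem Flt.mono {F : Rl B → B} (h : Flt F) {a b : Rl B} (hab : a ≤ b) : F a ≤ F b := by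
  have := h.sub a b
  rwa [ssub_top_of_le hab, top_inf_eq] at this

theorem exists_max_flt (F : Rl B → B) (hF : Flt F) :
    ∃ M : Rl B → B, Flt M ∧ F ≤ M ∧ ∀ M', Flt M' → M ≤ M' → M' ≤ M := by
  obtain ⟨M, hFM, hM⟩ := zorn_le_nonempty₀ {F : Rl B → B | Flt F}
    (by
      intro C hC hchain G hG
      refine ⟨fun a => ⨆ H ∈ C, H a, ⟨?_, ?_, ?_, ?_⟩, ?_⟩
      · refine le_bot_iff.1 (iSup₂_le fun H hH => ?_)
        exact (hC hH).bot.le
      · refine top_le_iff.1 (le_iSup₂_of_le G hG ?_)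
        exact (hC hG).top.ge
      · intro a b
        rw [iSup_inf_eq]
        refine iSup_le fun H => ?_
        rw [iSup_inf_eq]
        refine iSup_le fun hH => ?_
        rw [inf_iSup_eq]
        refine iSup_le fun K => ?_
        rw [inf_iSup_eq]
        refine iSup_le fun hK => ?_
        rcases hchain.total hH hK with h | h
        · exact le_iSup₂_of_le K hK ((inf_le_inf_right _ (h a)).trans ((hC hK).inf a b))
        · exact le_iSup₂_of_le H hH ((inf_le_inf_left _ (h b)).trans ((hC hH).inf a b))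
      · intro a b
        rw [inf_iSup_eq]
        refine iSup_le fun H => ?_
        rw [inf_iSup_eq]
        refine iSup_le fun hH => ?_
        exact le_iSup₂_of_le H hH ((hC hH).sub a b)
      · intro H hH a
        exact le_iSup₂_of_le H hH le_rfl) F hF
  exact ⟨M, hM.prop, hFM, fun M' hM' h => hM.le_of_ge hM' h⟩

theorem exu : ExuStatement.{u} := by
  intro B _ F h1 h2 h3 h4
  obtain ⟨M, hM, hFM, hmax⟩ := exists_max_flt F ⟨h1, h2, h3, h4⟩
  have hdis : ∀ a, M a ⊓ M aᶜ = ⊥ := by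
    intro a
    refine le_bot_iff.1 ((hM.inf _ _).trans ?_)
    rw [inf_compl_self, hM.bot]
  have hcov : ∀ a, M a ⊔ M aᶜ = ⊤ := by
    intro a
    set c : B := (M a ⊔ M aᶜ)ᶜ with hc
    have hcM : c ⊓ M aᶜ = ⊥ := by
      refine le_bot_iff.1 ?_
      rw [← compl_inf_self (M a ⊔ M aᶜ)]
      exact inf_le_inf_left _ le_sup_right
    have hcM2 : c ⊓ M a = ⊥ := by
      refine le_bot_iff.1 ?_
      rw [← compl_inf_self (M a ⊔ M aᶜ)]
      exact inf_le_inf_left _ le_sup_left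
    have hM' : Flt fun b => M b ⊔ (c ⊓ M (aᶜ ⊔ b)) := by
      refine ⟨?_, ?_, ?_, ?_⟩
      · change M ⊥ ⊔ (c ⊓ M (aᶜ ⊔ ⊥)) = ⊥
        rw [sup_bot_eq, hM.bot, bot_sup_eq, hcM]
      · change M ⊤ ⊔ (c ⊓ M (aᶜ ⊔ ⊤)) = ⊤
        rw [hM.top, top_sup_eq]
      · intro b b'
        change (M b ⊔ (c ⊓ M (aᶜ ⊔ b))) ⊓ (M b' ⊔ (c ⊓ M (aᶜ ⊔ b'))) ≤
          M (b ⊓ b') ⊔ (c ⊓ M (aᶜ ⊔ (b ⊓ b')))
        have e1 : M b ≤ M (aᶜ ⊔ b) := hM.mono le_sup_right
        have e2 : M b' ≤ M (aᶜ ⊔ b') := hM.mono le_sup_right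
        have e3 : M (aᶜ ⊔ b) ⊓ M (aᶜ ⊔ b') ≤ M (aᶜ ⊔ (b ⊓ b')) := by
          rw [sup_inf_left]
          exact hM.inf _ _
        rw [inf_sup_right, inf_sup_left]
        refine sup_le (sup_le ?_ ?_) ?_
        · exact (hM.inf _ _).trans le_sup_left
        · refine le_trans ?_ le_sup_right
          exact le_inf (inf_le_right.trans inf_le_left)
            ((inf_le_inf e1 inf_le_right).trans e3)
        · refine le_trans ?_ le_sup_right
          refine le_inf (inf_le_left.trans inf_le_left) ?_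
          refine le_trans (inf_le_inf inf_le_right ?_) e3
          exact sup_le e2 inf_le_right
      · intro b b'
        change ssub b b' ⊓ (M b ⊔ (c ⊓ M (aᶜ ⊔ b))) ≤ M b' ⊔ (c ⊓ M (aᶜ ⊔ b'))
        rw [inf_sup_left]
        refine sup_le_sup (hM.sub _ _) ?_
        refine le_inf (inf_le_right.trans inf_le_left) ?_
        exact (inf_le_inf (ssub_sup_left b b' aᶜ) inf_le_right).trans (hM.sub _ _)
    have hle := hmax _ hM' (fun b => le_sup_left) a
    have hca : c ≤ M a := by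
      refine le_trans ?_ hle
      refine le_sup_of_le_right (le_inf le_rfl ?_)
      rw [compl_sup_eq_top, hM.top]
      exact le_top
    have hcb : c = ⊥ := by
      rw [← inf_eq_left] at hca
      rw [← hca, hcM2]
    rw [hc, compl_eq_bot] at hcb
    exact hcb
  refine ⟨M, ⟨?_, ?_, hM.sub⟩, hFM⟩
  · intro a
    exact (IsCompl.of_eq (hdis a) (hcov a)).compl_eq.symm
  · intro a b
    exact le_antisymm (le_inf (hM.mono inf_le_left) (hM.mono inf_le_right)) (hM.inf a b)

end Pool.Agent.Lib.MP_c5d73d_lc.F.H90
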