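import Pool.Agent.Lib.MP_c5d73d_lc.F.IfaceT

/-!
# Module MIX: maximum principle
-/

universe u v w

open Cardinal Filter

open scoped symmDiff

namespace Pool.Agent.Lib.MP_c5d73d_lc.F.H90

theorem mix : MixStatement.{u, v} := by
  classical
  intro B _ T S hS hmix F hF
  obtain ⟨s0, hs0⟩ := hS
  let f : B → T → B := fun b => if hb : ∃ x ∈ S, F x = b then hb.choose else s0
  have hfS : ∀ b, f b ∈ S := by
    intro b
    by_cases hb : ∃ x ∈ S, F x = b
    · simp only [f, dif_pos hb]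
      exact hb.choose_spec.1
    · simp only [f, dif_neg hb]
      exact hs0
  have hfF : ∀ x ∈ S, F (f (F x)) = F x := by
    intro x hx
    have hb : ∃ y ∈ S, F y = F x := ⟨x, hx, rfl⟩
    simp only [f, dif_pos hb]
    exact hb.choose_spec.2
  let r : B → B → Prop := WellOrderingRel
  let a : B → B := fun b => F (f b) ⊓ (⨆ c : {c // r c b}, F (f c.1))ᶜ
  have hdisj : ∀ b c, r b c → a b ⊓ a c ≤ ⊥ := by
    intro b c hbc
    have h1 : a b ≤ ⨆ d : {d // r d c}, F (f d.1) :=
      inf_le_left.trans (le_iSup_of_le (⟨b, hbc⟩ : {d // r d c}) le_rfl)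
    have h2 : a c ≤ (⨆ d : {d // r d c}, F (f d.1))ᶜ := inf_le_right
    exact le_trans (inf_le_inf h1 h2) (by rw [inf_compl_self])
  let d : Option B → B := fun o => o.elim (⨆ b, a b)ᶜ a
  let g : Option B → T → B := fun o => o.elim s0 f
  have hgS : ∀ o, g o ∈ S := by
    rintro (_ | b)
    · exact hs0
    · exact hfS b
  have hd1 : ∀ o o', o ≠ o' → d o ⊓ d o' = ⊥ := by
    rintro (_ | b) (_ | c) hne
    · exact absurd rfl hne
    · refine le_bot_iff.1 ?_
      change (⨆ b, a b)ᶜ ⊓ a c ≤ ⊥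
      exact (inf_le_inf_left _ (le_iSup a c)).trans (by rw [compl_inf_self])
    · refine le_bot_iff.1 ?_
      change a b ⊓ (⨆ b, a b)ᶜ ≤ ⊥
      exact (inf_le_inf_right _ (le_iSup a b)).trans (by rw [inf_compl_self])
    · change a b ⊓ a c = ⊥
      rcases trichotomous_of WellOrderingRel b c with hbc | rfl | hbc
      · exact le_bot_iff.1 (hdisj b c hbc)
      · exact absurd rfl hne
      · rw [inf_comm]; exact le_bot_iff.1 (hdisj c b hbc)
  have hd2 : ⨆ o, d o = ⊤ := by
    rw [iSup_option]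
    change (⨆ b, a b)ᶜ ⊔ (⨆ b, a b) = ⊤
    exact compl_sup_eq_top
  refine ⟨fun t => ⨆ o, d o ⊓ g o t, hmix (Option B) d g hd1 hd2 hgS, ?_⟩
  set τ : T → B := fun t => ⨆ o, d o ⊓ g o t with hτ
  -- on `a b` the mixture is `f b`
  have hmixeq : ∀ b, a b ≤ ⨅ t, f b t ⇔ τ t := by
    intro b
    refine le_iInf fun t => ?_
    change a b ≤ (τ t ⇨ f b t) ⊓ (f b t ⇨ τ t)
    refine le_inf ?_ ?_
    · rw [le_himp_iff, hτ]
      change a b ⊓ (⨆ o, d o ⊓ g o t) ≤ f b t
      rw [inf_iSup_eq]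
      refine iSup_le fun o => ?_
      by_cases ho : o = some b
      · subst ho
        exact inf_le_right.trans inf_le_right
      · have h1 : a b ⊓ (d o ⊓ g o t) ≤ d (some b) ⊓ d o :=
          inf_le_inf_left _ inf_le_left
        rw [hd1 _ _ (Ne.symm ho)] at h1
        exact h1.trans bot_le
    · rw [le_himp_iff]
      exact le_iSup_of_le (some b) le_rfl
  have key : ∀ b, F (f b) ≤ F τ := by
    intro b
    induction b using (IsWellFounded.wf (r := (WellOrderingRel : B → B → Prop))).induction with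
    | _ b ih =>
      have h1 : F (f b) ≤ a b ⊔ ⨆ c : {c // r c b}, F (f c.1) := by
        change _ ≤ F (f b) ⊓ (⨆ c : {c // r c b}, F (f c.1))ᶜ ⊔ ⨆ c : {c // r c b}, F (f c.1)
        rw [sup_inf_right, sup_comm (_ᶜ), sup_compl_eq_top, inf_top_eq]
        exact le_sup_left
      refine h1.trans (sup_le ?_ (iSup_le fun c => ih c.1 c.2))
      exact (le_inf (hmixeq b) inf_le_left).trans (hF _ _)
  intro x hx
  rw [← hfF x hx]
  exact key _

end Pool.Agent.Lib.MP_c5d73d_lc.F.H90
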